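import Pool.Agent.H55.G4.Ext

/-!
# The finite checks of the path contractions with star fills

`v` is deleted, the path `o → f → i` of the quad `v, o, f, i` at the corner `j` is contracted to
`f` (index `0`); the order of the new vertices is `o` (twin of `f`, arc to `f`), `i` (twin of `f`,
arc from `f`), `v`. The survivors are `f` and the spokes `x 0, x 1, ..` outside the corner `j` in
this order. Directions for `x 0` in.
-/

set_option autoImplicit false

namespace Pool.Agent.H1.G4

open Pool.Agent.H55.G4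

/-- survivors `f x0 x3`, word `2q2q`, corner 1, new arc `x3 > x0` -/
theorem chk_2q2q_1 : chk [(0,0,0,0),(1,0,0,0),(1,2,0,0)]
    [St.twin 0 true, St.twin 0 false, St.free 18 12] = true := by decide +kernel

/-- survivors `f x1 x2`, word `2q2q`, corner 3, new arc `x2 > x1` -/
theorem chk_2q2q_3 : chk [(0,0,0,0),(0,1,0,0),(0,3,0,0)]
    [St.twin 0 true, St.twin 0 false, St.free 18 12] = true := by decide +kernel

/-- survivors `f x0 x3`, word `2q1q`, corner 1, new arc `x3 > x0` -/
theorem chk_2q1q_1 : chk [(0,0,0,0),(1,0,0,0),(0,3,0,0)]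
    [St.twin 0 true, St.twin 0 false, St.free 18 12] = true := by decide +kernel

/-- survivors `f x0 x3 x4`, word `2qqmq`, corner 1, new arcs `x0 > x3`, `f > x3` -/
theorem chk_2qqmq_1 : chk [(0,0,0,0),(1,0,0,0),(3,0,0,0),(4,0,0,2)]
    [St.twin 0 true, St.twin 0 false, St.free 38 24] = true := by decide +kernel

/-- survivors `f x1 x2 x3`, word `2qmqq`, corner 4, new arcs `f > x2`, `f > x3` -/
theorem chk_2qmqq_4 : chk [(0,0,0,0),(0,1,0,0),(1,0,0,2),(1,4,0,0)]
    [St.twin 0 true, St.twin 0 false, St.free 42 20] = true := by decide +kernel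

/-- survivors `f x0 x1 x2`, word `2mqqq`, corner 3, new arcs `x2 > f`, `x0 > x2` -/
theorem chk_2mqqq_3 : chk [(0,0,0,0),(0,0,1,0),(0,2,0,0),(6,1,0,0)]
    [St.twin 0 true, St.twin 0 false, St.free 38 24] = true := by decide +kernel

/-- survivors `f x1 x2 x3`, word `222qq`, corner 4, new arc `f > x3` -/
theorem chk_222qq_4 : chk [(0,0,0,0),(0,1,0,0),(0,2,0,0),(1,4,0,0)]
    [St.twin 0 true, St.twin 0 false, St.free 46 16] = true := by decide +kernel

/-- survivors `f x1 x2 x3`, word `22q2q`, corner 4, new arc `x1 > x3` -/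
theorem chk_22q2q_4 : chk [(0,0,0,0),(0,1,0,0),(0,2,0,0),(2,1,0,4)]
    [St.twin 0 true, St.twin 0 false, St.free 38 24] = true := by decide +kernel

/-- survivors `f x1 x2 x3`, word `221qq`, corner 4, new arc `f > x3` -/
theorem chk_221qq_4 : chk [(0,0,0,0),(0,1,0,0),(0,2,0,0),(5,0,0,0)]
    [St.twin 0 true, St.twin 0 false, St.free 46 16] = true := by decide +kernel

end Pool.Agent.H1.G4
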