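import Pool.Agent.H65.G4.Ears

/-!
# Two path contractions at vertices of degree five

`core_A` : the word `s2 q m q q`, corner 4; `core_B` : the word `s2 m q q q`, corner 3; direction
`x0` in. The hypothesis `hF` is the far lemma.
-/

set_option autoImplicit false

namespace Pool.Agent.H1.G4

open Relation Pool.Agent.H13.DA Pool.Agent.H72.G4 Pool.Agent.H21.G4 Pool.Agent.H13.G4
  Pool.Agent.H55.G4 Pool.Agent.H65.G4

/-- survivors `f x1 x2 x3`, word `2qmqq`, corner 4, new arcs `f > x2`, `f > x3` -/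
theorem chk_A : chk [(0,0,0,0),(0,1,0,0),(1,0,0,0),(1,4,0,0)]
    [St.twin 0 true, St.twin 0 false, St.free 42 20] = true := by decide +kernel

/-- survivors `f x0 x1 x2`, word `2mqqq`, corner 3, new arcs `x2 > f`, `x0 > x2` -/
theorem chk_B : chk [(0,0,0,0),(0,0,0,0),(0,2,0,0),(6,1,0,0)]
    [St.twin 0 true, St.twin 0 false, St.free 38 24] = true := by decide +kernel

variable {V : Type*} [DecidableEq V] {T : Finset (V × V × V)} {D : V → V → Prop} {a b c : V}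

omit [DecidableEq V] in
theorem getD_inj {l : List V} (hl : l.Nodup) (v : V) (x y : ℕ) (hx : x < l.length)
    (hy : y < l.length) (h : l.getD x v = l.getD y v) : x = y := by
  rw [List.getD_eq_getElem _ _ hx, List.getD_eq_getElem _ _ hy] at h
  exact (List.Nodup.getElem_inj_iff hl).1 h

/-- the far lemma -/
def Far (D : V → V → Prop) (u o s i : V) : Prop :=
  ∀ r m, Ar D u r → r ≠ o → r ≠ i → ¬ Ar D r o → ¬ Ar D r i → m ≠ u → Ar D r m → Ar D m s → False

/-- word `s2 q m q q`, corner 4 -/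
theorem core_A [Infinite V] (hM : MCw T D a b c) (hT : Ts T D a b c) {u s d x0 x1 x2 x3 x4 : V}
    (h : Qd T D u x4 s x0 d) (hu : ¬ Tr a b c u) (h4 : ¬ Tr a b c x4) (h0 : ¬ Tr a b c x0)
    (hg : Good T D u) (hb : Pcb T D u x4 s x0 d) (hF : Far D u x4 s x0)
    (hN : ∀ y, Ar D u y ↔ y = x0 ∨ y = x1 ∨ y = x2 ∨ y = x3 ∨ y = x4)
    (hinj : [x0, x1, x2, x3, x4].Nodup)
    (d1 : D x1 u) (d2 : D u x2) (d3 : D x3 u) (r10 : D x1 x0) (r32 : D x3 x2)
    (n02 : ¬ Ar D x0 x2) (n03 : ¬ Ar D x0 x3) (n12 : ¬ Ar D x1 x2) (n13 : ¬ Ar D x1 x3)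
    (n24 : ¬ Ar D x2 x4) (n34 : ¬ Ar D x3 x4)
    (hd : ∀ e, ¬ Re D e → Adj T e u → Adj T e x0 → ¬ Adj T e x2) : False := by
  have has := hT.pl.asymm
  have htr := hT.pl.tri
  have irr : ∀ x, ¬ D x x := fun x k => has x x k k
  obtain ⟨e1, e2, e3, e4, e5, e6, e7, e8, e9, e10⟩ := h.ne hT
  simp only [List.nodup_cons, List.mem_cons, List.not_mem_nil, or_false, not_or,
    not_false_eq_true, List.nodup_nil, and_true] at hinj
  obtain ⟨⟨f01, f02, f03, f04⟩, ⟨f12, f13, f14⟩, ⟨f23, f24⟩, f34⟩ := hinj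
  -- `s` is not a neighbour of `u`
  have nus : ¬ Ar D u s := by
    rintro (k | k)
    · exact htr _ _ _ k h.si h.iu
    · exact htr _ _ _ k h.uo h.os
  have nsx : ∀ {x}, Ar D u x → x ≠ s := fun k e => nus (e ▸ k)
  have a1 : Ar D u x1 := Or.inr d1
  have a2 : Ar D u x2 := Or.inl d2
  have a3 : Ar D u x3 := Or.inr d3
  have g1 : x1 ≠ s := nsx a1
  have g2 : x2 ≠ s := nsx a2
  have g3 : x3 ≠ s := nsx a3
  have u1 : x1 ≠ u := by rintro rfl; exact irr _ d1
  have u2 : x2 ≠ u := by rintro rfl; exact irr _ d2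
  have u3 : x3 ≠ u := by rintro rfl; exact irr _ d3
  have rd : ∀ {x}, Ar D u x → x ≠ d := by
    rintro x (k | k) rfl
    · exact h.nd ⟨_, Or.inr k⟩
    · exact h.nd ⟨_, Or.inl k⟩
  have w1 : ¬ Wq x4 s x0 d x1 := by
    rintro (k | k | k | k)
    · exact f14 k
    · exact g1 k
    · exact f01 k.symm
    · exact rd a1 k
  have w2 : ¬ Wq x4 s x0 d x2 := by
    rintro (k | k | k | k)
    · exact f24 k
    · exact g2 k
    · exact f02 k.symm
    · exact rd a2 k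
  have w3 : ¬ Wq x4 s x0 d x3 := by
    rintro (k | k | k | k)
    · exact f34 k
    · exact g3 k
    · exact f03 k.symm
    · exact rd a3 k
  -- no arcs between `s` and the neighbours of `u`
  have ns : ∀ {x}, Ar D u x → x ≠ x4 → x ≠ x0 → ¬ Ar D s x := by
    intro x k1 k2 k3 k4
    rcases hb.n2 x (hT.pl.ar_adj k1) (hT.pl.ar_adj k4) with k | k | k
    · exact k2 k
    · exact k3 k
    · exact rd k1 k
  -- the new arcs
  let A : V → V → Prop := fun x y => x = s ∧ (y = x2 ∨ y = x3)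
  -- fibres over `s`
  have noW2 : ∀ x', Fb x4 s x0 s x' → ¬ Ar D x' x2 := by
    rintro x' (rfl | ⟨-, rfl | rfl⟩)
    · exact ns a2 f24 (fun e => f02 e.symm)
    · exact fun k => n24 (ar_symm k)
    · exact n02
  have noW3 : ∀ x', Fb x4 s x0 s x' → ¬ Ar D x' x3 := by
    rintro x' (rfl | ⟨-, rfl | rfl⟩)
    · exact ns a3 f34 (fun e => f03 e.symm)
    · exact fun k => n34 (ar_symm k)
    · exact n03
  have fb : ∀ {x x'}, Fb x4 s x0 x x' → x ≠ s → x' = x := by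
    rintro x x' (k | ⟨k, -⟩) k'
    · exact k
    · exact absurd k k'
  have hA0 : ∀ x y, A x y → Nm D u x4 s x0 x ∧ Nm D u x4 s x0 y ∧ x ≠ y := by
    rintro x y ⟨rfl, rfl | rfl⟩
    · exact ⟨Or.inl rfl, Or.inr ⟨a2, f24, fun e => f02 e.symm⟩, fun e => g2 e.symm⟩
    · exact ⟨Or.inl rfl, Or.inr ⟨a3, f34, fun e => f03 e.symm⟩, fun e => g3 e.symm⟩
  have hA1 : ∀ x y, A x y → ¬ A y x ∧
      ∀ x' y', Fb x4 s x0 x x' → Fb x4 s x0 y y' → ¬ D y' x' := by
    rintro x y ⟨rfl, rfl | rfl⟩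
    · refine ⟨fun k => g2 k.1, fun x' y' k1 k2 k3 => ?_⟩
      rw [fb k2 g2] at k3
      exact noW2 x' k1 (Or.inr k3)
    · refine ⟨fun k => g3 k.1, fun x' y' k1 k2 k3 => ?_⟩
      rw [fb k2 g3] at k3
      exact noW3 x' k1 (Or.inr k3)
  -- names
  have nm : ∀ {m}, Nm D u x4 s x0 m → m ≠ s → m = x1 ∨ m = x2 ∨ m = x3 := by
    rintro m (k | ⟨k, k1, k2⟩) hm
    · exact absurd k hm
    · rcases (hN m).1 k with k | k | k | k | k
      · exact absurd k k2
      · exact Or.inl k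
      · exact Or.inr (Or.inl k)
      · exact Or.inr (Or.inr k)
      · exact absurd k k1
  have hA2 : ∀ x y m, A x y → Nm D u x4 s x0 m → m ≠ x → m ≠ y → Mm D x4 s x0 A y m →
      Mm D x4 s x0 A m x → False := by
    rintro x y m ⟨rfl, hy⟩ hm hmx hmy k1 k2
    have ys : y ≠ x := by rcases hy with rfl | rfl; exacts [g2, g3]
    -- the arc `y m`
    have k3 : D y m := by
      rcases k1 with k1 | ⟨y', m', q1, q2, q3⟩
      · exact absurd k1.1 ys
      · rwa [fb q1 ys, fb q2 hmx] at q3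
    rcases nm hm hmx with rfl | rfl | rfl
    · rcases hy with rfl | rfl
      · exact n12 (Or.inr k3)
      · exact n13 (Or.inr k3)
    · rcases k2 with k2 | ⟨m', x', q1, q2, q3⟩
      · exact hmx k2.1
      · rw [fb q1 hmx] at q3
        exact noW2 x' q2 (Or.inr q3)
    · rcases k2 with k2 | ⟨m', x', q1, q2, q3⟩
      · exact hmx k2.1
      · rw [fb q1 hmx] at q3
        exact noW3 x' q2 (Or.inr q3)
  have hA3 : ∀ x y, A x y → ∀ x' y', Fb x4 s x0 x x' → Fb x4 s x0 y y' → D x' u → D u y' →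
      ¬ ∃ e, ¬ Re D e ∧ Adj T e u ∧ Adj T e x' ∧ Adj T e y' := by
    rintro x y ⟨rfl, hy⟩ x' y' k1 k2 k3 k4 ⟨e, q1, q2, q3, q4⟩
    have ys : y ≠ x := by rcases hy with rfl | rfl; exacts [g2, g3]
    rw [fb k2 ys] at k4 q4
    rcases hy with rfl | rfl
    · rcases k1 with rfl | ⟨-, rfl | rfl⟩
      · exact nus (Or.inr k3)
      · exact has _ _ k3 h.uo
      · exact hd e q1 q2 q3 q4
    · exact has _ _ d3 k4
  have hA4 : ∀ x m, A s x → ¬ Wq x4 s x0 d m → m ≠ u → D x m → D m s → False := by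
    rintro x m ⟨-, rfl | rfl⟩ k1 k2 k3 k4
    · exact hF x m a2 f24 (fun e => f02 e.symm) n24 (fun k => n02 (ar_symm k)) k2 (Or.inl k3)
        (Or.inl k4)
    · exact hF x m a3 f34 (fun e => f03 e.symm) n34 (fun k => n03 (ar_symm k)) k2 (Or.inl k3)
        (Or.inl k4)
  have hA5 : ∀ x m, A x s → ¬ Wq x4 s x0 d m → m ≠ u → D s m → D m x → False := by
    rintro x m ⟨-, k | k⟩
    · exact absurd k.symm g2
    · exact absurd k.symm g3
  obtain ⟨has', htr'⟩ := ears hT h hg hb hA0 hA1 hA2 hA3 hA4 hA5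
  have ro : rp (Wq x4 s x0 d) s x4 = s := rp_in (Or.inl rfl)
  have rs : rp (Wq x4 s x0 d) s s = s := rp_in (Or.inr (Or.inl rfl))
  have ri : rp (Wq x4 s x0 d) s x0 = s := rp_in (Or.inr (Or.inr (Or.inl rfl)))
  have r1 : rp (Wq x4 s x0 d) s x1 = x1 := rp_out w1
  have r2 : rp (Wq x4 s x0 d) s x2 = x2 := rp_out w2
  have r3 : rp (Wq x4 s x0 d) s x3 = x3 := rp_out w3
  refine pc_fill hM hT h hu (w := s) (y1 := x4) (y2 := x0)
    (Or.inr (Or.inl ⟨rfl, Or.inl ⟨rfl, rfl⟩⟩)) h4 h0 hb.n1 hb.n2 (A := A) (p0 := s)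
    (Or.inl rfl) ?_ has' htr' ?_
  · rintro x y ⟨rfl, hy⟩
    refine ⟨⟨_, Or.inl h.si⟩, ?_, fun e => e2 e.symm, ?_, Or.inl ⟨rs, y, ?_, rfl⟩⟩
    · rcases hy with rfl | rfl
      · exact (ar_re a2).2
      · exact (ar_re a3).2
    · rcases hy with rfl | rfl
      · exact u2
      · exact u3
    · rcases hy with rfl | rfl
      · exact hT.pl.ar_adj a2
      · exact hT.pl.ar_adj a3
  · intro O hO hE
    have hnd : [s, x1, x2, x3, x4, x0, u].Nodup := by
      simp only [List.nodup_cons, List.mem_cons, List.not_mem_nil, or_false, not_or,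
        not_false_eq_true, List.nodup_nil, and_true]
      exact ⟨⟨g1.symm, g2.symm, g3.symm, e5.symm, e8, e2.symm⟩,
        ⟨f12, f13, f14, fun e => f01 e.symm, u1⟩, ⟨f23, f24, fun e => f02 e.symm, u2⟩,
        ⟨f34, fun e => f03 e.symm, u3⟩, ⟨fun e => f04 e.symm, e1.symm⟩, e3.symm⟩
    refine pc_lift hT h chk_A (by decide) (n := fun k => [s, x1, x2, x3, x4, x0, u].getD k u)
      (fun x y hx hy => getD_inj hnd u x y (by simpa using hx) (by simpa using hy))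
      rfl rfl rfl rfl ?_ ?_ hO hE ?_
    · intro x hx
      rcases (hN x).1 (Or.inr hx) with rfl | rfl | rfl | rfl | rfl
      · exact ⟨5, by decide, rfl, by decide⟩
      · exact ⟨1, by decide, rfl, by decide⟩
      · exact absurd hx (has _ _ d2)
      · exact ⟨3, by decide, rfl, by decide⟩
      · exact absurd hx (has _ _ h.uo)
    · intro x hx
      rcases (hN x).1 (Or.inl hx) with rfl | rfl | rfl | rfl | rfl
      · exact absurd hx (has _ _ h.iu)
      · exact absurd hx (has _ _ d1)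
      · exact ⟨2, by decide, rfl, by decide⟩
      · exact absurd hx (has _ _ d3)
      · exact ⟨4, by decide, rfl, by decide⟩
    · refine pre_of (E := [(1, 0), (0, 2), (0, 3), (3, 2)]) (F := []) ?_ ?_ _ 0 (by decide)
      · intro p hp
        simp only [List.mem_cons, List.not_mem_nil, or_false] at hp
        rcases hp with rfl | rfl | rfl | rfl
        · exact hE x1 s ⟨g1, x1, x0, r1, ri, Or.inl ⟨r10, u1, e3.symm⟩⟩
        · exact hE s x2 ⟨g2.symm, s, x2, rs, r2, Or.inr ⟨rfl, Or.inl rfl⟩⟩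
        · exact hE s x3 ⟨g3.symm, s, x3, rs, r3, Or.inr ⟨rfl, Or.inr rfl⟩⟩
        · exact hE x3 x2 ⟨fun e => f23 e.symm, x3, x2, r3, r2, Or.inl ⟨r32, u3, u2⟩⟩
      · intro p hp
        exact absurd hp (by simp)

/-- word `s2 m q q q`, corner 3 -/
theorem core_B [Infinite V] (hM : MCw T D a b c) (hT : Ts T D a b c) {u s d x0 x1 x2 x3 x4 : V}
    (h : Qd T D u x4 s x3 d) (hu : ¬ Tr a b c u) (h4 : ¬ Tr a b c x4) (h3 : ¬ Tr a b c x3)
    (hg : Good T D u) (hb : Pcb T D u x4 s x3 d) (hF : Far D u x4 s x3)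
    (hN : ∀ y, Ar D u y ↔ y = x0 ∨ y = x1 ∨ y = x2 ∨ y = x3 ∨ y = x4)
    (hinj : [x0, x1, x2, x3, x4].Nodup)
    (d0 : D x0 u) (d1 : D x1 u) (d2 : D u x2) (r10 : D x1 x0) (r12 : D x1 x2)
    (n02 : ¬ Ar D x0 x2) (n03 : ¬ Ar D x0 x3) (n04 : ¬ Ar D x0 x4) (n13 : ¬ Ar D x1 x3)
    (n14 : ¬ Ar D x1 x4) (n23 : ¬ Ar D x2 x3) (n24 : ¬ Ar D x2 x4)
    (hd : ∀ e, ¬ Re D e → Adj T e u → Adj T e x0 → ¬ Adj T e x2) : False := by
  have has := hT.pl.asymm
  have htr := hT.pl.tri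
  have irr : ∀ x, ¬ D x x := fun x k => has x x k k
  obtain ⟨e1, e2, e3, e4, e5, e6, e7, e8, e9, e10⟩ := h.ne hT
  simp only [List.nodup_cons, List.mem_cons, List.not_mem_nil, or_false, not_or,
    not_false_eq_true, List.nodup_nil, and_true] at hinj
  obtain ⟨⟨f01, f02, f03, f04⟩, ⟨f12, f13, f14⟩, ⟨f23, f24⟩, f34⟩ := hinj
  -- `s` is not a neighbour of `u`
  have nus : ¬ Ar D u s := by
    rintro (k | k)
    · exact htr _ _ _ k h.si h.iu
    · exact htr _ _ _ k h.uo h.os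
  have nsx : ∀ {x}, Ar D u x → x ≠ s := fun k e => nus (e ▸ k)
  have a0 : Ar D u x0 := Or.inr d0
  have a1 : Ar D u x1 := Or.inr d1
  have a2 : Ar D u x2 := Or.inl d2
  have g0 : x0 ≠ s := nsx a0
  have g1 : x1 ≠ s := nsx a1
  have g2 : x2 ≠ s := nsx a2
  have u0 : x0 ≠ u := by rintro rfl; exact irr _ d0
  have u1 : x1 ≠ u := by rintro rfl; exact irr _ d1
  have u2 : x2 ≠ u := by rintro rfl; exact irr _ d2
  have rd : ∀ {x}, Ar D u x → x ≠ d := by
    rintro x (k | k) rfl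
    · exact h.nd ⟨_, Or.inr k⟩
    · exact h.nd ⟨_, Or.inl k⟩
  have w0 : ¬ Wq x4 s x3 d x0 := by
    rintro (k | k | k | k)
    · exact f04 k
    · exact g0 k
    · exact f03 k
    · exact rd a0 k
  have w1 : ¬ Wq x4 s x3 d x1 := by
    rintro (k | k | k | k)
    · exact f14 k
    · exact g1 k
    · exact f13 k
    · exact rd a1 k
  have w2 : ¬ Wq x4 s x3 d x2 := by
    rintro (k | k | k | k)
    · exact f24 k
    · exact g2 k
    · exact f23 k
    · exact rd a2 k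
  -- no arcs between `s` and the neighbours of `u`
  have ns : ∀ {x}, Ar D u x → x ≠ x4 → x ≠ x3 → ¬ Ar D s x := by
    intro x k1 k2 k3 k4
    rcases hb.n2 x (hT.pl.ar_adj k1) (hT.pl.ar_adj k4) with k | k | k
    · exact k2 k
    · exact k3 k
    · exact rd k1 k
  -- the new arcs
  let A : V → V → Prop := fun x y => (x = x2 ∧ y = s) ∨ (x = x0 ∧ y = x2)
  -- fibres over `s`
  have noW2 : ∀ x', Fb x4 s x3 s x' → ¬ Ar D x' x2 := by
    rintro x' (rfl | ⟨-, rfl | rfl⟩)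
    · exact ns a2 f24 f23
    · exact fun k => n24 (ar_symm k)
    · exact fun k => n23 (ar_symm k)
  have noW0 : ∀ x', Fb x4 s x3 s x' → ¬ Ar D x' x0 := by
    rintro x' (rfl | ⟨-, rfl | rfl⟩)
    · exact ns a0 f04 f03
    · exact fun k => n04 (ar_symm k)
    · exact fun k => n03 (ar_symm k)
  have fb : ∀ {x x'}, Fb x4 s x3 x x' → x ≠ s → x' = x := by
    rintro x x' (k | ⟨k, -⟩) k'
    · exact k
    · exact absurd k k'
  have hA0 : ∀ x y, A x y → Nm D u x4 s x3 x ∧ Nm D u x4 s x3 y ∧ x ≠ y := by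
    rintro x y (⟨rfl, rfl⟩ | ⟨rfl, rfl⟩)
    · exact ⟨Or.inr ⟨a2, f24, f23⟩, Or.inl rfl, g2⟩
    · exact ⟨Or.inr ⟨a0, f04, f03⟩, Or.inr ⟨a2, f24, f23⟩, f02⟩
  have hA1 : ∀ x y, A x y → ¬ A y x ∧
      ∀ x' y', Fb x4 s x3 x x' → Fb x4 s x3 y y' → ¬ D y' x' := by
    rintro x y (⟨rfl, rfl⟩ | ⟨rfl, rfl⟩)
    · refine ⟨?_, fun x' y' k1 k2 k3 => ?_⟩
      · rintro (k | k)
        · exact g2 k.2
        · exact g0 k.1.symm
      · rw [fb k1 g2] at k3
        exact noW2 y' k2 (Or.inl k3)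
    · refine ⟨?_, fun x' y' k1 k2 k3 => ?_⟩
      · rintro (k | k)
        · exact g0 k.2
        · exact f02 k.1.symm
      · rw [fb k1 g0, fb k2 g2] at k3
        exact n02 (Or.inr k3)
  -- names
  have nm : ∀ {m}, Nm D u x4 s x3 m → m ≠ s → m = x0 ∨ m = x1 ∨ m = x2 := by
    rintro m (k | ⟨k, k1, k2⟩) hm
    · exact absurd k hm
    · rcases (hN m).1 k with k | k | k | k | k
      · exact Or.inl k
      · exact Or.inr (Or.inl k)
      · exact Or.inr (Or.inr k)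
      · exact absurd k k2
      · exact absurd k k1
  have hA2 : ∀ x y m, A x y → Nm D u x4 s x3 m → m ≠ x → m ≠ y → Mm D x4 s x3 A y m →
      Mm D x4 s x3 A m x → False := by
    rintro x y m (⟨rfl, rfl⟩ | ⟨rfl, rfl⟩) hm hmx hmy k1 k2
    · -- `x2 > s > m > x2`
      rcases nm hm hmy with rfl | rfl | rfl
      · rcases k1 with (k1 | k1) | ⟨y', m', q1, q2, q3⟩
        · exact g2 k1.1.symm
        · exact g0 k1.1.symm
        · rw [fb q2 g0] at q3
          exact noW0 y' q1 (Or.inl q3)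
      · -- `x1 > x2` and `s > x1`
        rcases k1 with (k1 | k1) | ⟨y', m', q1, q2, q3⟩
        · exact g2 k1.1.symm
        · exact g0 k1.1.symm
        · rw [fb q2 g1] at q3
          rcases q1 with rfl | ⟨-, rfl | rfl⟩
          · exact ns a1 f14 f13 (Or.inl q3)
          · exact n14 (Or.inr q3)
          · exact n13 (Or.inr q3)
      · exact hmx rfl
    · -- `x0 > x2 > m > x0`
      by_cases hms : m = s
      · subst hms
        rcases k2 with (k2 | k2) | ⟨m', x', q1, q2, q3⟩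
        · exact g2 k2.1.symm
        · exact g0 k2.1.symm
        · rw [fb q2 g0] at q3
          exact noW0 m' q1 (Or.inl q3)
      · rcases nm hm hms with rfl | rfl | rfl
        · exact hmx rfl
        · rcases k1 with (k1 | k1) | ⟨y', m', q1, q2, q3⟩
          · exact g1 k1.2
          · exact f02 k1.1.symm
          · rw [fb q1 g2, fb q2 g1] at q3
            exact has _ _ q3 r12
        · exact hmy rfl
  have hA3 : ∀ x y, A x y → ∀ x' y', Fb x4 s x3 x x' → Fb x4 s x3 y y' → D x' u → D u y' →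
      ¬ ∃ e, ¬ Re D e ∧ Adj T e u ∧ Adj T e x' ∧ Adj T e y' := by
    rintro x y (⟨rfl, rfl⟩ | ⟨rfl, rfl⟩) x' y' k1 k2 k3 k4 ⟨e, q1, q2, q3, q4⟩
    · rw [fb k1 g2] at k3
      exact has _ _ d2 k3
    · rw [fb k1 g0] at q3
      rw [fb k2 g2] at q4
      exact hd e q1 q2 q3 q4
  have hA4 : ∀ x m, A s x → ¬ Wq x4 s x3 d m → m ≠ u → D x m → D m s → False := by
    rintro x m (⟨k, -⟩ | ⟨k, -⟩)
    · exact absurd k.symm g2
    · exact absurd k.symm g0
  have hA5 : ∀ x m, A x s → ¬ Wq x4 s x3 d m → m ≠ u → D s m → D m x → False := by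
    rintro x m (⟨rfl, -⟩ | ⟨-, k⟩) k1 k2 k3 k4
    · exact hF x m a2 f24 f23 n24 n23 k2 (Or.inr k4) (Or.inr k3)
    · exact g2 k.symm
  obtain ⟨has', htr'⟩ := ears hT h hg hb hA0 hA1 hA2 hA3 hA4 hA5
  have ro : rp (Wq x4 s x3 d) s x4 = s := rp_in (Or.inl rfl)
  have rs : rp (Wq x4 s x3 d) s s = s := rp_in (Or.inr (Or.inl rfl))
  have ri : rp (Wq x4 s x3 d) s x3 = s := rp_in (Or.inr (Or.inr (Or.inl rfl)))
  have r0 : rp (Wq x4 s x3 d) s x0 = x0 := rp_out w0
  have r1 : rp (Wq x4 s x3 d) s x1 = x1 := rp_out w1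
  have r2 : rp (Wq x4 s x3 d) s x2 = x2 := rp_out w2
  refine pc_fill hM hT h hu (w := s) (y1 := x4) (y2 := x3)
    (Or.inr (Or.inl ⟨rfl, Or.inl ⟨rfl, rfl⟩⟩)) h4 h3 hb.n1 hb.n2 (A := A) (p0 := x2)
    (Or.inr ⟨hT.pl.ar_adj a2, w2⟩) ?_ has' htr' ?_
  · rintro x y (⟨rfl, rfl⟩ | ⟨rfl, rfl⟩)
    · exact ⟨(ar_re a2).2, ⟨_, Or.inl h.si⟩, u2, fun e => e2 e.symm,
        Or.inl ⟨r2, x4, hT.pl.adj _ _ h.uo, ro.trans rs.symm⟩⟩
    · exact ⟨(ar_re a0).2, (ar_re a2).2, u0, u2, Or.inr ⟨r2, x, hT.pl.ar_adj a0, rfl⟩⟩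
  · intro O hO hE
    have hnd : [s, x0, x1, x2, x4, x3, u].Nodup := by
      simp only [List.nodup_cons, List.mem_cons, List.not_mem_nil, or_false, not_or,
        not_false_eq_true, List.nodup_nil, and_true]
      exact ⟨⟨g0.symm, g1.symm, g2.symm, e5.symm, e8, e2.symm⟩,
        ⟨f01, f02, f04, f03, u0⟩, ⟨f12, f14, f13, u1⟩,
        ⟨f24, f23, u2⟩, ⟨fun e => f34 e.symm, e1.symm⟩, e3.symm⟩
    refine pc_lift hT h chk_B (by decide) (n := fun k => [s, x0, x1, x2, x4, x3, u].getD k u)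
      (fun x y hx hy => getD_inj hnd u x y (by simpa using hx) (by simpa using hy))
      rfl rfl rfl rfl ?_ ?_ hO hE ?_
    · intro x hx
      rcases (hN x).1 (Or.inr hx) with rfl | rfl | rfl | rfl | rfl
      · exact ⟨1, by decide, rfl, by decide⟩
      · exact ⟨2, by decide, rfl, by decide⟩
      · exact absurd hx (has _ _ d2)
      · exact ⟨5, by decide, rfl, by decide⟩
      · exact absurd hx (has _ _ h.uo)
    · intro x hx
      rcases (hN x).1 (Or.inl hx) with rfl | rfl | rfl | rfl | rfl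
      · exact absurd hx (has _ _ d0)
      · exact absurd hx (has _ _ d1)
      · exact ⟨3, by decide, rfl, by decide⟩
      · exact absurd hx (has _ _ h.iu)
      · exact ⟨4, by decide, rfl, by decide⟩
    · refine pre_of (E := [(2, 1), (1, 3), (2, 3), (3, 0)]) (F := []) ?_ ?_ _ 0 (by decide)
      · intro p hp
        simp only [List.mem_cons, List.not_mem_nil, or_false] at hp
        rcases hp with rfl | rfl | rfl | rfl
        · exact hE x1 x0 ⟨fun e => f01 e.symm, x1, x0, r1, r0, Or.inl ⟨r10, u1, u0⟩⟩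
        · exact hE x0 x2 ⟨f02, x0, x2, r0, r2, Or.inr (Or.inr ⟨rfl, rfl⟩)⟩
        · exact hE x1 x2 ⟨f12, x1, x2, r1, r2, Or.inl ⟨r12, u1, u2⟩⟩
        · exact hE x2 s ⟨g2, x2, s, r2, rs, Or.inr (Or.inl ⟨rfl, rfl⟩)⟩
      · intro p hp
        exact absurd hp (by simp)

end Pool.Agent.H1.G4
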