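import Pool.Agent.H1.G4.R5
import Pool.Agent.H72.G4.Row
import Pool.Agent.H95.G4.Row2q2q
import Pool.Agent.H65.G4.Rn

/-!
# The rows `s2 q m q q` (corner 4) and `s2 m q q q` (corner 3), and their mirror images

`pc_A`, `pc_A'` : `s2 q m q q` and `q q m q s1`; `pc_B`, `pc_B'` : `s2 m q q q` and `q q q m s1`.
Every position, both directions. `hb`, `hF` : the facts of the old digraph for the quads at `u`
whose corners are inner and whose far edges are short.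
-/

set_option autoImplicit false

namespace Pool.Agent.H1.G4

open Relation Pool.Agent.H13.DA Pool.Agent.H72.G4 Pool.Agent.H21.G4 Pool.Agent.H13.G4
  Pool.Agent.H55.G4 Pool.Agent.H65.G4 Pool.Agent.H80.G4 Pool.Agent.H32.G4 Pool.Agent.H95.G4

variable {V : Type*} [DecidableEq V] {T X : Finset (V × V × V)} {D : V → V → Prop} {a b c : V}
  {Z : List V}

theorem sh_symm (hT : Ts T D a b c) {p q : V} (h : Sh T D p q) : Sh T D q p := by
  obtain ⟨z, z1, z2, z3⟩ := h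
  refine ⟨z, z1, ?_, z3.symm⟩
  have cx := hT.pl.disc.cx
  rcases z2 with k | k
  · exact Or.inr (cx.rot k)
  · exact Or.inl (cx.rot (cx.rot k))

omit [DecidableEq V] in
theorem far_rev {u o s i : V} (h : Far D u o s i) : Far (Rev D) u i s o := by
  intro r m k1 k2 k3 k4 k5 k6 k7 k8
  exact h r m (ar_rev.1 k1) k3 k2 (fun k => k5 (ar_rev.2 k)) (fun k => k4 (ar_rev.2 k)) k6
    (ar_rev.1 k7) (ar_rev.1 k8)

/-- the facts about the quads at `u` -/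
def Hb (T X : Finset (V × V × V)) (D : V → V → Prop) (Z : List V) (u : V) : Prop :=
  ∀ o s i d, Qd T D u o s i d → In X D Z o → In X D Z s → In X D Z i → Sh T D o s →
    Sh T D s i → Pcb T D u o s i d ∧ Far D u o s i

/-- word `s2 q m q q`, corner 4, both directions -/
theorem exp_A [Infinite V] (hM : MCw T D a b c) (hT : Ts T D a b c)
    (hin : ∀ v, In X D Z v → ¬ Tr a b c v) {u : V} (hu : In X D Z u) (hg : Good T D u)
    (hb : Hb T X D Z u) {y0 y1 y2 y3 y4 f d : V}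
    (hN : ∀ y, Ar D u y ↔ y = y0 ∨ y = y1 ∨ y = y2 ∨ y = y3 ∨ y = y4)
    (hinj : [y0, y1, y2, y3, y4].Nodup)
    (c0 : (D u y0 ∧ D u y1 ∧ D y0 y1) ∨ (D y0 u ∧ D y1 u ∧ D y1 y0))
    (c1 : (D y1 u ∧ D u y2) ∨ (D u y1 ∧ D y2 u))
    (c2 : (D y2 u ∧ D u y3 ∧ D y2 y3) ∨ (D u y2 ∧ D y3 u ∧ D y3 y2))
    (n02 : ¬ Ar D y0 y2) (n03 : ¬ Ar D y0 y3) (n12 : ¬ Ar D y1 y2) (n13 : ¬ Ar D y1 y3)
    (n24 : ¬ Ar D y2 y4) (n34 : ¬ Ar D y3 y4)
    (hd : ∀ e, ¬ Re D e → Adj T e u → Adj T e y0 → ¬ Adj T e y2)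
    (hnd : ¬ Re D d) (hda : ∀ y, Adj T d y ↔ y = u ∨ y = y4 ∨ y = f ∨ y = y0)
    (hq : (D u y4 ∧ D y4 f ∧ D f y0 ∧ D y0 u) ∨ (D y4 u ∧ D f y4 ∧ D y0 f ∧ D u y0))
    (i4 : In X D Z y4) (i5 : In X D Z f) (i0 : In X D Z y0) (s4 : Sh T D y4 f)
    (s0 : Sh T D f y0) : False := by
  have as := hT.pl.asymm
  rcases hq with ⟨q1, q2, q3, q4⟩ | ⟨q1, q2, q3, q4⟩
  · have Q : Qd T D u y4 f y0 d := ⟨q1, q2, q3, q4, hnd, hda⟩
    obtain ⟨b1, b2⟩ := hb _ _ _ _ Q i4 i5 i0 s4 s0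
    rcases c0 with ⟨k1, _, _⟩ | ⟨k1, k2, k3⟩
    · exact as _ _ k1 q4
    rcases c1 with ⟨_, l2⟩ | ⟨l1, _⟩
    swap
    · exact as _ _ l1 k2
    rcases c2 with ⟨m1, _, _⟩ | ⟨_, m2, m3⟩
    · exact as _ _ l2 m1
    exact core_A hM hT Q (hin _ hu) (hin _ i4) (hin _ i0) hg b1 b2 hN hinj k2 l2 m2 k3 m3
      n02 n03 n12 n13 n24 n34 hd
  · have Q : Qd T D u y0 f y4 d := ⟨q4, q3, q2, q1, hnd, fun y => (hda y).trans (by tauto)⟩
    obtain ⟨b1, b2⟩ := hb _ _ _ _ Q i0 i5 i4 (sh_symm hT s0) (sh_symm hT s4)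
    rcases c0 with ⟨k1, k2, k3⟩ | ⟨k1, _, _⟩
    swap
    · exact as _ _ k1 q4
    rcases c1 with ⟨l1, _⟩ | ⟨_, l2⟩
    · exact as _ _ l1 k2
    rcases c2 with ⟨_, m2, m3⟩ | ⟨m1, _, _⟩
    swap
    · exact as _ _ l2 m1
    exact core_A (mcw_rev.2 hM) (ts_rev.2 hT) (Qd_rev Q) (hin _ hu) (hin _ i4) (hin _ i0)
      (good_rev.2 hg) (Pcb_rev b1) (far_rev b2) (fun y => ar_rev.trans (hN y)) hinj k2 l2 m2 k3 m3
      (fun k => n02 (ar_rev.1 k)) (fun k => n03 (ar_rev.1 k)) (fun k => n12 (ar_rev.1 k))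
      (fun k => n13 (ar_rev.1 k)) (fun k => n24 (ar_rev.1 k)) (fun k => n34 (ar_rev.1 k))
      (fun e he => hd e (fun k => he (re_rev.2 k)))

/-- word `s2 m q q q`, corner 3, both directions -/
theorem exp_B [Infinite V] (hM : MCw T D a b c) (hT : Ts T D a b c)
    (hin : ∀ v, In X D Z v → ¬ Tr a b c v) {u : V} (hu : In X D Z u) (hg : Good T D u)
    (hb : Hb T X D Z u) {y0 y1 y2 y3 y4 f d : V}
    (hN : ∀ y, Ar D u y ↔ y = y0 ∨ y = y1 ∨ y = y2 ∨ y = y3 ∨ y = y4)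
    (hinj : [y0, y1, y2, y3, y4].Nodup)
    (c0 : (D u y0 ∧ D u y1 ∧ D y0 y1) ∨ (D y0 u ∧ D y1 u ∧ D y1 y0))
    (c1 : (D y1 u ∧ D u y2 ∧ D y1 y2) ∨ (D u y1 ∧ D y2 u ∧ D y2 y1))
    (c2 : (D y2 u ∧ D u y3) ∨ (D u y2 ∧ D y3 u))
    (n02 : ¬ Ar D y0 y2) (n03 : ¬ Ar D y0 y3) (n04 : ¬ Ar D y0 y4) (n13 : ¬ Ar D y1 y3)
    (n14 : ¬ Ar D y1 y4) (n23 : ¬ Ar D y2 y3) (n24 : ¬ Ar D y2 y4)
    (hd : ∀ e, ¬ Re D e → Adj T e u → Adj T e y0 → ¬ Adj T e y2)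
    (hnd : ¬ Re D d) (hda : ∀ y, Adj T d y ↔ y = u ∨ y = y4 ∨ y = f ∨ y = y3)
    (hq : (D u y4 ∧ D y4 f ∧ D f y3 ∧ D y3 u) ∨ (D y4 u ∧ D f y4 ∧ D y3 f ∧ D u y3))
    (i4 : In X D Z y4) (i5 : In X D Z f) (i3 : In X D Z y3) (s4 : Sh T D y4 f)
    (s3 : Sh T D f y3) : False := by
  have as := hT.pl.asymm
  rcases hq with ⟨q1, q2, q3, q4⟩ | ⟨q1, q2, q3, q4⟩
  · have Q : Qd T D u y4 f y3 d := ⟨q1, q2, q3, q4, hnd, hda⟩
    obtain ⟨b1, b2⟩ := hb _ _ _ _ Q i4 i5 i3 s4 s3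
    rcases c2 with ⟨_, l2⟩ | ⟨l1, _⟩
    · exact as _ _ l2 q4
    rcases c1 with ⟨m1, m2, m3⟩ | ⟨_, m2, _⟩
    swap
    · exact as _ _ l1 m2
    rcases c0 with ⟨_, k2, _⟩ | ⟨k1, k2, k3⟩
    · exact as _ _ k2 m1
    exact core_B hM hT Q (hin _ hu) (hin _ i4) (hin _ i3) hg b1 b2 hN hinj k1 k2 l1 k3 m3
      n02 n03 n04 n13 n14 n23 n24 hd
  · have Q : Qd T D u y3 f y4 d := ⟨q4, q3, q2, q1, hnd, fun y => (hda y).trans (by tauto)⟩
    obtain ⟨b1, b2⟩ := hb _ _ _ _ Q i3 i5 i4 (sh_symm hT s3) (sh_symm hT s4)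
    rcases c2 with ⟨l1, _⟩ | ⟨_, l2⟩
    swap
    · exact as _ _ l2 q4
    rcases c1 with ⟨_, m2, _⟩ | ⟨m1, m2, m3⟩
    · exact as _ _ l1 m2
    rcases c0 with ⟨k1, k2, k3⟩ | ⟨_, k2, _⟩
    swap
    · exact as _ _ k2 m1
    exact core_B (mcw_rev.2 hM) (ts_rev.2 hT) (Qd_rev Q) (hin _ hu) (hin _ i4) (hin _ i3)
      (good_rev.2 hg) (Pcb_rev b1) (far_rev b2) (fun y => ar_rev.trans (hN y)) hinj k1 k2 l1 k3 m3
      (fun k => n02 (ar_rev.1 k)) (fun k => n03 (ar_rev.1 k)) (fun k => n04 (ar_rev.1 k))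
      (fun k => n13 (ar_rev.1 k)) (fun k => n14 (ar_rev.1 k)) (fun k => n23 (ar_rev.1 k))
      (fun k => n24 (ar_rev.1 k)) (fun e he => hd e (fun k => he (re_rev.2 k)))

section rot

theorem f5_cov (i u : Fin 5) : u = i ∨ u = i + 1 ∨ u = i + 1 + 1 ∨ u = i + 1 + 1 + 1 ∨
    u = i + 1 + 1 + 1 + 1 := by
  revert i u; decide

theorem f5_wrap (i : Fin 5) : i + 1 + 1 + 1 + 1 + 1 = i := by revert i; decide

/-- the neighbours of a vertex with five spokes, counted from `i` -/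
theorem nb5_at {v : V} {x : Fin 5 → V} {w : Fin 5 → CT} (R : Rot T D v 4 x w) (i : Fin 5)
    (u : V) : Ar D v u ↔
      u = x i ∨ u = x (i + 1) ∨ u = x (i + 1 + 1) ∨ u = x (i + 1 + 1 + 1) ∨
        u = x (i + 1 + 1 + 1 + 1) := by
  rw [R.nb]
  constructor
  · rintro ⟨j, rfl⟩
    rcases f5_cov i j with h | h | h | h | h <;> rw [h]
    · exact Or.inl rfl
    · exact Or.inr (Or.inl rfl)
    · exact Or.inr (Or.inr (Or.inl rfl))
    · exact Or.inr (Or.inr (Or.inr (Or.inl rfl)))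
    · exact Or.inr (Or.inr (Or.inr (Or.inr rfl)))
  · rintro (h | h | h | h | h) <;> exact ⟨_, h⟩

theorem rot5_nodup {v : V} {x : Fin 5 → V} {w : Fin 5 → CT} (R : Rot T D v 4 x w) (i : Fin 5) :
    [x i, x (i + 1), x (i + 1 + 1), x (i + 1 + 1 + 1), x (i + 1 + 1 + 1 + 1)].Nodup := by
  have h : ([i, i + 1, i + 1 + 1, i + 1 + 1 + 1, i + 1 + 1 + 1 + 1] : List (Fin 5)).Nodup := by
    revert i; decide
  exact h.map R.inj

/-- non-adjacent spokes and no common dummy -/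
theorem rot_far (hT : Ts T D a b c) {v : V} (hv : ¬ Tr a b c v) {x : Fin 5 → V} {w : Fin 5 → CT}
    (R : Rot T D v 4 x w) {j k : Fin 5} (h1 : k ≠ j + 1) (h2 : j ≠ k + 1) (h3 : j ≠ k) :
    ¬ Ar D (x j) (x k) ∧ ∀ e, ¬ Re D e → Adj T e v → Adj T e (x j) → ¬ Adj T e (x k) := by
  refine ⟨fun h => ?_, fun e he k1 k2 k3 => ?_⟩
  · rcases R.adj hT hv h with ⟨m, _⟩ | ⟨m, _⟩
    · exact h1 m
    · exact h2 m
  · rcases rot_dummy2 hT hv R (by norm_num) h3 he k1 k2 k3 with ⟨m, _⟩ | ⟨m, _⟩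
    · exact h1 m
    · exact h2 m

theorem rot_nq (hT : Ts T D a b c) {v : V} (hv : ¬ Tr a b c v) {x : Fin 5 → V} {w : Fin 5 → CT}
    (R : Rot T D v 4 x w) {j : Fin 5} (hj : w j = CT.q) : ¬ Ar D (x j) (x (j + 1)) := by
  intro h
  rcases R.adj hT hv h with ⟨_, m⟩ | ⟨m, _⟩
  · exact m hj
  · exact absurd m (hh5 j)

private theorem d2a : ∀ i : Fin 5, i + 1 + 1 ≠ i + 1 := by decide
private theorem d2b : ∀ i : Fin 5, i ≠ i + 1 + 1 + 1 := by decide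
private theorem d2c : ∀ i : Fin 5, i ≠ i + 1 + 1 := by decide
private theorem d3a : ∀ i : Fin 5, i + 1 + 1 + 1 ≠ i + 1 := by decide
private theorem d3b : ∀ i : Fin 5, i ≠ i + 1 + 1 + 1 + 1 := by decide

/-- spokes at distance two -/
theorem rot_d2 (hT : Ts T D a b c) {v : V} (hv : ¬ Tr a b c v) {x : Fin 5 → V} {w : Fin 5 → CT}
    (R : Rot T D v 4 x w) (j : Fin 5) : ¬ Ar D (x j) (x (j + 1 + 1)) ∧
      ∀ e, ¬ Re D e → Adj T e v → Adj T e (x j) → ¬ Adj T e (x (j + 1 + 1)) :=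
  rot_far hT hv R (d2a j) (d2b j) (d2c j)

/-- spokes at distance three -/
theorem rot_d3 (hT : Ts T D a b c) {v : V} (hv : ¬ Tr a b c v) {x : Fin 5 → V} {w : Fin 5 → CT}
    (R : Rot T D v 4 x w) (j : Fin 5) : ¬ Ar D (x j) (x (j + 1 + 1 + 1)) ∧
      ∀ e, ¬ Re D e → Adj T e v → Adj T e (x j) → ¬ Adj T e (x (j + 1 + 1 + 1)) :=
  rot_far hT hv R (d3a j) (d3b j) (d2b j)

theorem rot5_nodup' {v : V} {x : Fin 5 → V} {w : Fin 5 → CT} (R : Rot T D v 4 x w) (i : Fin 5) :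
    [x i, x (i + 1 + 1 + 1 + 1), x (i + 1 + 1 + 1), x (i + 1 + 1), x (i + 1)].Nodup := by
  have h : ([i, i + 1 + 1 + 1 + 1, i + 1 + 1 + 1, i + 1 + 1, i + 1] : List (Fin 5)).Nodup := by
    revert i; decide
  exact h.map R.inj

/-- **Row `s2 q m q q`, corner 4.** -/
theorem pc_A [Infinite V] (hM : MCw T D a b c) (hT : Ts T D a b c)
    (hin : ∀ v, In X D Z v → ¬ Tr a b c v) {u : V} (hu : In X D Z u) (hg : Good T D u)
    (hb : Hb T X D Z u) {x : Fin 5 → V} {w : Fin 5 → CT} (R : Rot T D u 4 x w) (i : Fin 5)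
    (w0 : w i = CT.s2) (w1 : w (i + 1) = CT.q) (w2 : w (i + 1 + 1) = CT.m)
    (w3 : w (i + 1 + 1 + 1) = CT.q) :
    PCok T X D Z u x (i + 1 + 1 + 1 + 1) := by
  intro f d hd hda hq ho hf hi so si
  have hv := hin u hu
  have c0 := R.cor i
  have c1 := R.cor (i + 1)
  have c2 := R.cor (i + 1 + 1)
  rw [w0] at c0
  rw [w1] at c1
  rw [w2] at c2
  rw [f5_wrap i] at hda hq hi si
  exact exp_A hM hT hin hu hg hb (nb5_at R i) (rot5_nodup R i) c0.2 c1.2 c2.2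
    (rot_d2 hT hv R i).1 (rot_d3 hT hv R i).1 (rot_nq hT hv R w1) (rot_d2 hT hv R (i + 1)).1
    (rot_d2 hT hv R (i + 1 + 1)).1 (rot_nq hT hv R w3) (rot_d2 hT hv R i).2 hd hda hq
    ho hf hi so si

/-- **Row `q q m q s1`, corner 0.** -/
theorem pc_A' [Infinite V] (hM : MCw T D a b c) (hT : Ts T D a b c)
    (hin : ∀ v, In X D Z v → ¬ Tr a b c v) {u : V} (hu : In X D Z u) (hg : Good T D u)
    (hb : Hb T X D Z u) {x : Fin 5 → V} {w : Fin 5 → CT} (R : Rot T D u 4 x w) (i : Fin 5)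
    (w1 : w (i + 1) = CT.q) (w2 : w (i + 1 + 1) = CT.m) (w3 : w (i + 1 + 1 + 1) = CT.q)
    (w4 : w (i + 1 + 1 + 1 + 1) = CT.s1) :
    PCok T X D Z u x i := by
  intro f d hd hda hq ho hf hi so si
  have hv := hin u hu
  have c2 := R.cor (i + 1 + 1)
  have c3 := R.cor (i + 1 + 1 + 1)
  have c4 := R.cor (i + 1 + 1 + 1 + 1)
  rw [w2] at c2
  rw [w3] at c3
  rw [w4, f5_wrap i] at c4
  have n1 := rot_nq hT hv R w1
  have n3 := rot_nq hT hv R w3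
  refine exp_A hM hT hin hu hg hb (y0 := x i) (y1 := x (i + 1 + 1 + 1 + 1))
    (y2 := x (i + 1 + 1 + 1)) (y3 := x (i + 1 + 1)) (y4 := x (i + 1)) (f := f) (d := d)
    (fun y => (nb5_at R i y).trans (by tauto)) (rot5_nodup' R i)
    (by have := c4.2; tauto) (by have := c3.2; tauto) (by have := c2.2; tauto)
    (rot_d3 hT hv R i).1 (rot_d2 hT hv R i).1 (fun k => n3 (ar_symm k))
    (fun k => (rot_d2 hT hv R (i + 1 + 1)).1 (ar_symm k))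
    (fun k => (rot_d2 hT hv R (i + 1)).1 (ar_symm k)) (fun k => n1 (ar_symm k))
    (rot_d3 hT hv R i).2 hd (fun y => (hda y).trans (by tauto)) (by tauto) hi hf ho
    (sh_symm hT si) (sh_symm hT so)

/-- **Row `s2 m q q q`, corner 3.** -/
theorem pc_B [Infinite V] (hM : MCw T D a b c) (hT : Ts T D a b c)
    (hin : ∀ v, In X D Z v → ¬ Tr a b c v) {u : V} (hu : In X D Z u) (hg : Good T D u)
    (hb : Hb T X D Z u) {x : Fin 5 → V} {w : Fin 5 → CT} (R : Rot T D u 4 x w) (i : Fin 5)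
    (w0 : w i = CT.s2) (w1 : w (i + 1) = CT.m) (w2 : w (i + 1 + 1) = CT.q)
    (w4 : w (i + 1 + 1 + 1 + 1) = CT.q) :
    PCok T X D Z u x (i + 1 + 1 + 1) := by
  intro f d hd hda hq ho hf hi so si
  have hv := hin u hu
  have c0 := R.cor i
  have c1 := R.cor (i + 1)
  have c2 := R.cor (i + 1 + 1)
  rw [w0] at c0
  rw [w1] at c1
  rw [w2] at c2
  have n4 := rot_nq hT hv R w4
  rw [f5_wrap i] at n4
  exact exp_B hM hT hin hu hg hb (nb5_at R i) (rot5_nodup R i) c0.2 c1.2 c2.2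
    (rot_d2 hT hv R i).1 (rot_d3 hT hv R i).1 (fun k => n4 (ar_symm k))
    (rot_d2 hT hv R (i + 1)).1 (rot_d3 hT hv R (i + 1)).1 (rot_nq hT hv R w2)
    (rot_d2 hT hv R (i + 1 + 1)).1 (rot_d2 hT hv R i).2 hd
    (fun y => (hda y).trans (by tauto)) (by tauto) hi hf ho (sh_symm hT si) (sh_symm hT so)

/-- **Row `q q q m s1`, corner 1.** -/
theorem pc_B' [Infinite V] (hM : MCw T D a b c) (hT : Ts T D a b c)
    (hin : ∀ v, In X D Z v → ¬ Tr a b c v) {u : V} (hu : In X D Z u) (hg : Good T D u)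
    (hb : Hb T X D Z u) {x : Fin 5 → V} {w : Fin 5 → CT} (R : Rot T D u 4 x w) (i : Fin 5)
    (w0 : w i = CT.q) (w2 : w (i + 1 + 1) = CT.q) (w3 : w (i + 1 + 1 + 1) = CT.m)
    (w4 : w (i + 1 + 1 + 1 + 1) = CT.s1) :
    PCok T X D Z u x (i + 1) := by
  intro f d hd hda hq ho hf hi so si
  have hv := hin u hu
  have c2 := R.cor (i + 1 + 1)
  have c3 := R.cor (i + 1 + 1 + 1)
  have c4 := R.cor (i + 1 + 1 + 1 + 1)
  rw [w2] at c2
  rw [w3] at c3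
  rw [w4, f5_wrap i] at c4
  have n0 := rot_nq hT hv R w0
  have n2 := rot_nq hT hv R w2
  refine exp_B hM hT hin hu hg hb (y0 := x i) (y1 := x (i + 1 + 1 + 1 + 1))
    (y2 := x (i + 1 + 1 + 1)) (y3 := x (i + 1 + 1)) (y4 := x (i + 1)) (f := f) (d := d)
    (fun y => (nb5_at R i y).trans (by tauto)) (rot5_nodup' R i)
    (by have := c4.2; tauto) (by have := c3.2; tauto) (by have := c2.2; tauto)
    (rot_d3 hT hv R i).1 (rot_d2 hT hv R i).1 n0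
    (fun k => (rot_d2 hT hv R (i + 1 + 1)).1 (ar_symm k))
    (fun k => (rot_d3 hT hv R (i + 1)).1 (ar_symm k)) (fun k => n2 (ar_symm k))
    (fun k => (rot_d2 hT hv R (i + 1)).1 (ar_symm k))
    (rot_d3 hT hv R i).2 hd hda hq ho hf hi so si

end rot

end Pool.Agent.H1.G4
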